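import Pool.Agent.H5.Par

set_option autoImplicit false

namespace Pool.Agent.Results.MP_e13ffb_co.Counter

open Pool.Agent.H5.ParDefs

theorem result : ∃ (d : ℕ) (A B : Finset (Fin d → ℤ)), 1 ≤ d ∧ A.Nonempty ∧ B.Nonempty ∧
    Disjoint A B ∧ IntConvex (A ∪ B) ∧ Par d A B ∧ ¬ CondH A B :=
  H5.Par.main

end Pool.Agent.Results.MP_e13ffb_co.Counter
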